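import Mathlib

/-!
# The Fischer pairing on polynomials
-/

open Finset MvPolynomial

namespace Pool.Agent.Helper10.GIT

section Pairing

variable {σ : Type*} [Fintype σ] [DecidableEq σ] {R : Type*} [CommRing R]

/-- `α! = ∏ i, (α i)!` -/
def mfact (α : σ →₀ ℕ) : ℕ := ∏ i, (α i).factorial

omit [DecidableEq σ] in
lemma mfact_pos (α : σ →₀ ℕ) : 0 < mfact α := prod_pos fun _ _ => Nat.factorial_pos _

lemma mfact_add_single (α : σ →₀ ℕ) (i : σ) :
    mfact (α + Finsupp.single i 1) = (α i + 1) * mfact α := by
  unfold mfact
  rw [← mul_prod_erase univ _ (mem_univ i), ← mul_prod_erase univ (fun j => (α j).factorial)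
    (mem_univ i), ← mul_assoc]
  congr 1
  · rw [Finsupp.add_apply, Finsupp.single_eq_same, Nat.factorial_succ]
  · refine prod_congr rfl fun j hj => ?_
    rw [Finsupp.add_apply, Finsupp.single_eq_of_ne (ne_of_mem_erase hj), add_zero]

/-- the Fischer pairing `⟨p, q⟩ = ∑ α! p_α q_α` -/
noncomputable def fis : MvPolynomial σ R →ₗ[R] MvPolynomial σ R →ₗ[R] R :=
  (basisMonomials σ R).constr R fun α => (mfact α : R) • lcoeff R α

omit [DecidableEq σ] in
lemma fis_monomial (α : σ →₀ ℕ) (a : R) (q : MvPolynomial σ R) :
    fis (monomial α a) q = a * (mfact α : R) * coeff α q := by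
  have h1 : monomial α a = a • basisMonomials σ R α := by
    rw [coe_basisMonomials, smul_monomial, smul_eq_mul, mul_one]
  rw [h1, map_smul, fis, Module.Basis.constr_basis, LinearMap.smul_apply, LinearMap.smul_apply,
    lcoeff_apply, smul_eq_mul, smul_eq_mul, mul_assoc]

omit [DecidableEq σ] in
lemma fis_eq_sum (p q : MvPolynomial σ R) :
    fis p q = ∑ α ∈ p.support, coeff α p * (mfact α : R) * coeff α q := by
  have h : ∀ r : MvPolynomial σ R, r = p →
      fis r q = ∑ α ∈ p.support, coeff α p * (mfact α : R) * coeff α q := by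
    intro r hr
    rw [← p.support_sum_monomial_coeff] at hr
    rw [hr, map_sum, LinearMap.sum_apply]
    exact sum_congr rfl fun α _ => fis_monomial α _ q
  exact h p rfl

lemma fis_monomial_monomial (α β : σ →₀ ℕ) (a b : R) :
    fis (monomial α a) (monomial β b) = if α = β then a * b * (mfact α : R) else 0 := by
  rw [fis_monomial, coeff_monomial]
  split_ifs with h1 h2 h2
  · ring
  · exact absurd h1.symm h2
  · exact absurd h2.symm h1
  · ring

lemma fis_comm (p q : MvPolynomial σ R) : fis p q = fis q p := by
  induction p using MvPolynomial.induction_on' with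
  | monomial α a =>
    induction q using MvPolynomial.induction_on' with
    | monomial β b =>
      rw [fis_monomial_monomial, fis_monomial_monomial]
      by_cases h : α = β
      · rw [if_pos h, if_pos h.symm, h]; ring
      · rw [if_neg h, if_neg (Ne.symm h)]
    | add q q' hq hq' => rw [map_add, map_add, LinearMap.add_apply, hq, hq']
  | add p p' hp hp' => rw [map_add, map_add, LinearMap.add_apply, hp, hp']

lemma fis_X_mul (i : σ) (p q : MvPolynomial σ R) : fis (X i * p) q = fis p (pderiv i q) := by
  induction p using MvPolynomial.induction_on' with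
  | monomial α a =>
    have h1 : (X i : MvPolynomial σ R) * monomial α a = monomial (α + Finsupp.single i 1) a := by
      rw [X, monomial_mul, one_mul, add_comm]
    rw [h1, fis_monomial, fis_monomial, coeff_pderiv, mfact_add_single]
    push_cast
    ring
  | add p p' hp hp' => rw [mul_add, map_add, map_add, LinearMap.add_apply, hp, hp',
      LinearMap.add_apply]

/-- the linear substitution `X i ↦ ∑ j, A i j X j` -/
noncomputable def subst (A : Matrix σ σ R) : MvPolynomial σ R →ₐ[R] MvPolynomial σ R :=
  aeval fun i => ∑ j, A i j • X j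

omit [DecidableEq σ] in
lemma subst_X (A : Matrix σ σ R) (i : σ) : subst A (X i) = ∑ j, A i j • X j := by
  rw [subst, aeval_X]

lemma pderiv_subst (A : Matrix σ σ R) (i : σ) (q : MvPolynomial σ R) :
    pderiv i (subst A.transpose q) = ∑ j, A i j • subst A.transpose (pderiv j q) := by
  induction q using MvPolynomial.induction_on with
  | C a =>
    rw [show subst A.transpose (C a) = C a from AlgHom.commutes _ a]
    simp
  | add p q hp hq => simp only [map_add, hp, hq, smul_add, sum_add_distrib]
  | mul_X p k hp =>
    rw [map_mul, Derivation.leibniz, hp, subst_X]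
    have h1 : pderiv i (∑ j, A.transpose k j • (X j : MvPolynomial σ R)) = C (A i k) := by
      rw [map_sum]
      simp only [Derivation.map_smul, pderiv_X, Matrix.transpose_apply]
      rw [sum_eq_single i]
      · rw [Pi.single_eq_same, smul_eq_C_mul, mul_one]
      · intro j _ hj
        rw [Pi.single_eq_of_ne hj, smul_zero]
      · intro h; exact absurd (mem_univ i) h
    rw [h1]
    have h2 : ∀ j, subst A.transpose (pderiv j (p * X k)) =
        subst A.transpose p * (if j = k then 1 else 0) +
          subst A.transpose (X k) * subst A.transpose (pderiv j p) := by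
      intro j
      rw [Derivation.leibniz, smul_eq_mul, smul_eq_mul, map_add, map_mul, map_mul, pderiv_X]
      congr 2
      rw [Pi.single_apply]
      by_cases hjk : j = k
      · rw [if_pos hjk, if_pos hjk.symm, map_one]
      · rw [if_neg hjk, if_neg (Ne.symm hjk), map_zero]
    simp only [h2, smul_add, sum_add_distrib, smul_eq_mul]
    congr 1
    · rw [sum_eq_single k]
      · rw [if_pos rfl, mul_one, smul_eq_C_mul, mul_comm]
      · intro j _ hj
        rw [if_neg hj, mul_zero, smul_zero]
      · intro h; exact absurd (mem_univ k) h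
    · rw [mul_sum, subst_X]
      refine sum_congr rfl fun j _ => ?_
      rw [mul_smul_comm]

omit [DecidableEq σ] in
lemma fis_one (q : MvPolynomial σ R) : fis 1 q = constantCoeff q := by
  have : (1 : MvPolynomial σ R) = monomial 0 1 := rfl
  rw [this, fis_monomial]
  simp [mfact, constantCoeff_eq]

/-- adjunction for linear substitutions -/
lemma fis_subst (A : Matrix σ σ R) (p q : MvPolynomial σ R) :
    fis (subst A p) q = fis p (subst A.transpose q) := by
  induction p using MvPolynomial.induction_on generalizing q with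
  | C a =>
    have h1 : (C a : MvPolynomial σ R) = a • 1 := by rw [smul_eq_C_mul, mul_one]
    rw [h1, map_smul, map_smul, map_smul, map_one, LinearMap.smul_apply, LinearMap.smul_apply,
      fis_one, fis_one]
    congr 1
    induction q using MvPolynomial.induction_on with
    | C b => rw [show subst A.transpose (C b) = C b from AlgHom.commutes _ b]
    | add p q hp hq => rw [map_add, map_add, map_add, hp, hq]
    | mul_X p k hp =>
      rw [map_mul, map_mul, map_mul, subst_X, constantCoeff_X, mul_zero, map_sum]
      simp
  | add p p' hp hp' => rw [map_add, map_add, map_add, LinearMap.add_apply, LinearMap.add_apply,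
      hp, hp']
  | mul_X p k hp =>
    rw [map_mul, mul_comm (subst A p), subst_X, sum_mul, map_sum, LinearMap.sum_apply,
      mul_comm p, fis_X_mul, pderiv_subst, map_sum]
    refine sum_congr rfl fun j _ => ?_
    rw [smul_mul_assoc, map_smul, LinearMap.smul_apply, fis_X_mul, hp, map_smul]

/-- positivity -/
lemma fis_self_ne_zero {S : Type*} [CommRing S] [CharZero S] (p : MvPolynomial σ ℤ)
    (hp : p ≠ 0) : fis (map (Int.castRingHom S) p) (map (Int.castRingHom S) p) ≠ 0 := by
  have h1 : ∀ p q : MvPolynomial σ ℤ, fis (map (Int.castRingHom S) p)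
      (map (Int.castRingHom S) q) = Int.castRingHom S (fis p q) := by
    intro p q
    induction p using MvPolynomial.induction_on' with
    | monomial α a =>
      rw [map_monomial, fis_monomial, fis_monomial, coeff_map, map_mul, map_mul, map_natCast]
    | add p p' hp hp' => rw [map_add, map_add, map_add, LinearMap.add_apply,
        LinearMap.add_apply, hp, hp', map_add]
  rw [h1]
  have h2 : fis p p = ∑ α ∈ p.support, (mfact α : ℤ) * (coeff α p) ^ 2 := by
    rw [fis_eq_sum]
    exact sum_congr rfl fun α _ => by ring
  have h3 : 0 < fis p p := by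
    rw [h2]
    refine sum_pos (fun α hα => ?_) (MvPolynomial.support_nonempty.mpr hp)
    have h4 : coeff α p ≠ 0 := MvPolynomial.mem_support_iff.mp hα
    have h5 : (0 : ℤ) < mfact α := by exact_mod_cast mfact_pos α
    positivity
  intro h4
  have h5 : ((fis p p : ℤ) : S) = 0 := h4
  rw [Int.cast_eq_zero] at h5
  omega

/-- homogeneous polynomials of different degrees are orthogonal -/
lemma fis_homogeneous {a b : ℕ} {p q : MvPolynomial σ R} (hp : p.IsHomogeneous a)
    (hq : q.IsHomogeneous b) (hab : a ≠ b) : fis p q = 0 := by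
  rw [fis_eq_sum]
  refine sum_eq_zero fun α hα => ?_
  by_cases h : coeff α q = 0
  · rw [h, mul_zero]
  · exfalso
    have h1 := hp (MvPolynomial.mem_support_iff.mp hα)
    have h2 := hq h
    exact hab (h1.symm.trans h2)

/-- representation of linear forms -/
lemma exists_fis_rep {S : Type*} [Field S] [CharZero S] (l : MvPolynomial σ S →ₗ[S] S)
    (T : Finset (σ →₀ ℕ)) (hT : ∀ α ∉ T, l (monomial α 1) = 0) :
    ∃ h : MvPolynomial σ S, ∀ q, fis h q = l q := by
  refine ⟨∑ α ∈ T, monomial α ((mfact α : S)⁻¹ * l (monomial α 1)), fun q => ?_⟩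
  induction q using MvPolynomial.induction_on' with
  | monomial β b =>
    rw [map_sum, LinearMap.sum_apply]
    simp only [fis_monomial_monomial]
    rw [sum_ite_eq']
    have h1 : monomial β b = b • monomial β (1 : S) := by
      rw [smul_monomial, smul_eq_mul, mul_one]
    have h2 : (mfact β : S) ≠ 0 := by
      exact_mod_cast (mfact_pos β).ne'
    split_ifs with h
    · rw [h1, map_smul, smul_eq_mul]
      field_simp
    · rw [h1, map_smul, hT β h, smul_zero]
  | add p q hp hq => rw [map_add, map_add, hp, hq]

/-- pairing of two products of variables: the number of matchings -/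
lemma fis_prod_X {P Q : Type} [Fintype P] [DecidableEq P] [Fintype Q] [DecidableEq Q]
    (u : P → σ) (v : Q → σ) :
    fis (∏ p, X (u p)) (∏ q, X (v q)) =
      ∑ τ : P ≃ Q, ∏ p, (if u p = v (τ p) then (1 : R) else 0) := by
  have hX : ∀ {P : Type} [Fintype P] [DecidableEq P] (u : P → σ),
      (∏ p, X (u p) : MvPolynomial σ R) = monomial (∑ p, Finsupp.single (u p) 1) 1 := by
    intro P _ _ u
    rw [monomial_sum_one]
    rfl
  have hcard : ∀ {P : Type} [Fintype P] [DecidableEq P] (u : P → σ) (i : σ),
      (∑ p, Finsupp.single (u p) 1 : σ →₀ ℕ) i = Fintype.card {p // u p = i} := by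
    intro P _ _ u i
    rw [Finsupp.finsetSum_apply, Fintype.card_subtype, card_filter]
    refine sum_congr rfl fun p _ => ?_
    rw [Finsupp.single_apply]
  rw [hX, hX, fis_monomial_monomial]
  have hR : ∀ τ : P ≃ Q, (∏ p, (if u p = v (τ p) then (1 : R) else 0)) =
      if v ∘ τ = u then 1 else 0 := by
    intro τ
    by_cases h : v ∘ τ = u
    · rw [if_pos h]
      refine prod_eq_one fun p _ => ?_
      rw [if_pos (show u p = v (τ p) from (congrFun h p).symm)]
    · rw [if_neg h]
      obtain ⟨p, hp⟩ := Function.ne_iff.mp h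
      exact prod_eq_zero (mem_univ p) (if_neg (fun h' => hp h'.symm))
  simp only [hR]
  by_cases hex : ∃ τ₀ : P ≃ Q, v ∘ τ₀ = u
  · obtain ⟨τ₀, hτ₀⟩ := hex
    have h1 : (∑ p, Finsupp.single (u p) 1 : σ →₀ ℕ) = ∑ q, Finsupp.single (v q) 1 := by
      rw [← Equiv.sum_comp τ₀ (fun q => Finsupp.single (v q) 1), ← hτ₀]
      rfl
    rw [if_pos h1, sum_boole, one_mul, one_mul]
    congr 1
    unfold mfact
    rw [prod_congr rfl fun i _ => by rw [hcard u i], ← DomMulAct.stabilizer_card u,
      Fintype.card_subtype]
    refine card_bij' (fun g _ => (g.trans τ₀ : P ≃ Q)) (fun τ _ => τ.trans τ₀.symm) ?_ ?_ ?_ ?_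
    · intro g hg
      rw [mem_filter] at hg ⊢
      refine ⟨mem_univ _, ?_⟩
      funext p
      have h2 := congrFun hτ₀ (g p)
      have h3 := congrFun hg.2 p
      simp only [Function.comp_apply, Equiv.trans_apply] at h2 h3 ⊢
      rw [h2, h3]
    · intro τ hτ
      rw [mem_filter] at hτ ⊢
      refine ⟨mem_univ _, ?_⟩
      funext p
      have h2 := congrFun hτ₀ (τ₀.symm (τ p))
      have h3 := congrFun hτ.2 p
      simp only [Function.comp_apply, Equiv.trans_apply, Equiv.apply_symm_apply] at h2 h3 ⊢
      rw [← h2, h3]
    · intro g _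
      ext p
      simp
    · intro τ _
      ext p
      simp
  · have h1 : (∑ p, Finsupp.single (u p) 1 : σ →₀ ℕ) ≠ ∑ q, Finsupp.single (v q) 1 := by
      intro h
      apply hex
      have h2 : ∀ i, Fintype.card {p // u p = i} = Fintype.card {q // v q = i} := by
        intro i
        rw [← hcard u i, ← hcard v i, h]
      let e : ∀ i, {p // u p = i} ≃ {q // v q = i} := fun i => Fintype.equivOfCardEq (h2 i)
      refine ⟨((Equiv.sigmaFiberEquiv u).symm.trans (Equiv.sigmaCongrRight e)).trans
        (Equiv.sigmaFiberEquiv v), ?_⟩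
      funext p
      exact (e (u p) ⟨p, rfl⟩).2
    rw [if_neg h1]
    symm
    refine sum_eq_zero fun τ _ => if_neg fun h => hex ⟨τ, h⟩

end Pairing

end Pool.Agent.Helper10.GIT
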