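import Mathlib

/-!
# Tensors under products of special linear groups: definitions
-/

open Finset

namespace Pool.Agent.Helper10.GIT

variable {m : ℕ} (n : Fin m → ℕ)

/-- multi-indices -/
abbrev Idx : Type := (t : Fin m) → Fin (n t)

/-- tuples of square matrices -/
abbrev Mats (R : Type*) : Type _ := (t : Fin m) → Matrix (Fin (n t)) (Fin (n t)) R

variable {n} {R : Type*} [CommRing R]

/-- the action of a tuple of matrices on a tensor -/
def act (g : Mats n R) : (Idx n → R) →ₗ[R] (Idx n → R) where
  toFun z w := ∑ w', (∏ t, g t (w t) (w' t)) * z w'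
  map_add' z z' := by
    funext w
    simp only [Pi.add_apply, mul_add, sum_add_distrib]
  map_smul' c z := by
    funext w
    simp only [Pi.smul_apply, smul_eq_mul, RingHom.id_apply, mul_sum]
    exact sum_congr rfl fun w' _ => by ring

lemma act_apply (g : Mats n R) (z : Idx n → R) (w : Idx n) :
    act g z w = ∑ w', (∏ t, g t (w t) (w' t)) * z w' := rfl

lemma act_mul (g h : Mats n R) (z : Idx n → R) : act (g * h) z = act g (act h z) := by
  funext w
  simp only [act_apply, Pi.mul_apply, Matrix.mul_apply, mul_sum]
  simp only [prod_univ_sum, Fintype.piFinset_univ, sum_mul]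
  rw [sum_comm]
  refine sum_congr rfl fun w' _ => sum_congr rfl fun w'' _ => ?_
  rw [prod_mul_distrib, mul_assoc]

lemma act_one (z : Idx n → R) : act (1 : Mats n R) z = z := by
  funext w
  rw [act_apply, sum_eq_single w]
  · simp
  · intro w' _ hne
    obtain ⟨t, ht⟩ := Function.ne_iff.mp hne
    rw [prod_eq_zero (mem_univ t), zero_mul]
    rw [Pi.one_apply, Matrix.one_apply_ne (Ne.symm ht)]
  · intro h; exact absurd (mem_univ w) h

/-- the sign of a map `Fin k → Fin k` (zero if it is not a permutation) -/
def eps {k : ℕ} (f : Fin k → Fin k) : R :=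
  Matrix.det (Matrix.of fun i j => if f i = j then (1 : R) else 0)

/-- Products of determinants: `N` tensors `z r`, all of whose `t`-th slots are contracted with a
product of `e t` determinants, in an order given by `σ t`. -/
def detForm {N : ℕ} {e : Fin m → ℕ} (σ : ∀ t, Fin (e t) × Fin (n t) ≃ Fin N)
    (z : Fin N → Idx n → R) : R :=
  ∑ W : Fin N → Idx n, (∏ t, ∏ k, eps (fun i => W (σ t (k, i)) t)) * ∏ r, z r (W r)

/-- the support of a set of tensors after the change of bases `h` -/
def supp (h : Mats n R) (M : Set (Idx n → R)) : Set (Idx n) :=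
  {w | ∃ z ∈ M, act h z w ≠ 0}

variable (n) in
/-- the ambient space of weights -/
abbrev WSpace : Type := EuclideanSpace ℝ (Σ t : Fin m, Fin (n t))

/-- the weight of a multi-index -/
noncomputable def wt (w : Idx n) : WSpace n := WithLp.toLp 2 fun s => if w s.1 = s.2 then 1 else 0

variable (n) in
/-- the uniform weight -/
noncomputable def unif : WSpace n := WithLp.toLp 2 fun s => (n s.1 : ℝ)⁻¹

/-- the bases `h` destabilise the set of tensors `M` -/
def Bad (h : Mats n R) (M : Set (Idx n → R)) : Prop :=
  unif n ∉ convexHull ℝ (wt '' supp h M)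

end Pool.Agent.Helper10.GIT
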