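import Mathlib

/-!
# Diagonalisation of matrices over the fraction field of a valuation ring
-/

open Matrix

namespace Pool.Agent.Helper10.GIT

variable {F : Type*} [Field F] (V : ValuationSubring F)

/-- every matrix over `F` is `k * diagonal d * h` with `k`, `h` invertible over `V` -/
def HasSmith (ι : Type) [Fintype ι] [DecidableEq ι] : Prop :=
  ∀ g : Matrix ι ι F, ∃ (k h : Matrix ι ι V) (d : ι → F), IsUnit k.det ∧ IsUnit h.det ∧
    g = k.map V.subtype * diagonal d * h.map V.subtype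

variable {V}

lemma HasSmith.equiv {ι ι' : Type} [Fintype ι] [DecidableEq ι] [Fintype ι'] [DecidableEq ι']
    (e : ι ≃ ι') (H : HasSmith V ι) : HasSmith V ι' := by
  intro g
  obtain ⟨k, h, d, hk, hh, hg⟩ := H (g.submatrix e e)
  refine ⟨k.submatrix e.symm e.symm, h.submatrix e.symm e.symm, d ∘ e.symm, ?_, ?_, ?_⟩
  · rwa [det_submatrix_equiv_self]
  · rwa [det_submatrix_equiv_self]
  · have h1 : g = (g.submatrix e e).submatrix e.symm e.symm := by simp
    have h2 : diagonal (d ∘ e.symm) = (diagonal d).submatrix e.symm e.symm := by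
      rw [submatrix_diagonal_equiv]
    rw [h1, hg, h2, ← submatrix_map, ← submatrix_map, submatrix_mul_equiv, submatrix_mul_equiv]

lemma isUnit_det_permMatrix {ι : Type} [Fintype ι] [DecidableEq ι] (σ : Equiv.Perm ι)
    (M : Matrix ι ι V) (hM : IsUnit M.det) : IsUnit (M.submatrix σ id).det := by
  rw [det_permute]
  refine IsUnit.mul ?_ hM
  exact (Equiv.Perm.sign σ).isUnit.map (Int.castRingHom V)

lemma isUnit_det_permMatrix' {ι : Type} [Fintype ι] [DecidableEq ι] (σ : Equiv.Perm ι)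
    (M : Matrix ι ι V) (hM : IsUnit M.det) : IsUnit (M.submatrix id σ).det := by
  rw [det_permute']
  refine IsUnit.mul ?_ hM
  exact (Equiv.Perm.sign σ).isUnit.map (Int.castRingHom V)

/-- it is enough to diagonalise after a permutation of rows and columns -/
lemma smith_of_perm {ι : Type} [Fintype ι] [DecidableEq ι] (g : Matrix ι ι F)
    (σ τ : Equiv.Perm ι)
    (H : ∃ (k h : Matrix ι ι V) (d : ι → F), IsUnit k.det ∧ IsUnit h.det ∧
      g.submatrix σ τ = k.map V.subtype * diagonal d * h.map V.subtype) :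
    ∃ (k h : Matrix ι ι V) (d : ι → F), IsUnit k.det ∧ IsUnit h.det ∧
      g = k.map V.subtype * diagonal d * h.map V.subtype := by
  obtain ⟨k, h, d, hk, hh, hg⟩ := H
  refine ⟨k.submatrix σ.symm id, h.submatrix id τ.symm, d, isUnit_det_permMatrix _ _ hk,
    isUnit_det_permMatrix' _ _ hh, ?_⟩
  have h1 : g = (g.submatrix σ τ).submatrix σ.symm τ.symm := by
    rw [submatrix_submatrix]; simp
  rw [h1, hg]
  ext i j
  simp [Matrix.mul_apply]

lemma hasSmith_step {n : ℕ} (H : HasSmith V (Fin n)) : HasSmith V (Fin n ⊕ Unit) := by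
  classical
  intro g
  by_cases hg0 : g = 0
  · refine ⟨1, 1, 0, by simp, by simp, ?_⟩
    rw [hg0]; simp
  obtain ⟨p, hp⟩ : ∃ p : (Fin n ⊕ Unit) × (Fin n ⊕ Unit),
      ∀ q : (Fin n ⊕ Unit) × (Fin n ⊕ Unit), V.valuation (g q.1 q.2) ≤
        V.valuation (g p.1 p.2) := by
    have : Nonempty ((Fin n ⊕ Unit) × (Fin n ⊕ Unit)) := ⟨(Sum.inr (), Sum.inr ())⟩
    exact Finite.exists_max fun q : (Fin n ⊕ Unit) × (Fin n ⊕ Unit) => V.valuation (g q.1 q.2)
  have hp0 : g p.1 p.2 ≠ 0 := by
    intro h0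
    apply hg0
    ext i j
    have := hp (i, j)
    rw [h0, map_zero, le_zero_iff, map_eq_zero] at this
    exact this
  refine smith_of_perm g (Equiv.swap p.1 (Sum.inr ())) (Equiv.swap p.2 (Sum.inr ())) ?_
  set g' : Matrix (Fin n ⊕ Unit) (Fin n ⊕ Unit) F :=
    g.submatrix (Equiv.swap p.1 (Sum.inr ())) (Equiv.swap p.2 (Sum.inr ())) with hg'
  have hpiv : g' (Sum.inr ()) (Sum.inr ()) = g p.1 p.2 := by
    simp [hg']
  have hmax : ∀ i j, V.valuation (g' i j) ≤ V.valuation (g' (Sum.inr ()) (Sum.inr ())) := by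
    intro i j
    rw [hpiv]
    exact hp (_, _)
  have hne : g' (Sum.inr ()) (Sum.inr ()) ≠ 0 := by rw [hpiv]; exact hp0
  have hdiv : ∀ i j, g' i j * (g' (Sum.inr ()) (Sum.inr ()))⁻¹ ∈ V := by
    intro i j
    rw [← V.valuation_le_one_iff, map_mul, map_inv₀]
    have hne' : V.valuation (g' (Sum.inr ()) (Sum.inr ())) ≠ 0 := by
      rwa [Ne, map_eq_zero]
    calc V.valuation (g' i j) * (V.valuation (g' (Sum.inr ()) (Sum.inr ())))⁻¹
        ≤ V.valuation (g' (Sum.inr ()) (Sum.inr ())) *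
          (V.valuation (g' (Sum.inr ()) (Sum.inr ())))⁻¹ := by
          gcongr
          exact hmax i j
      _ = 1 := mul_inv_cancel₀ hne'
  clear_value g'
  set A : Matrix (Fin n) (Fin n) F := g'.toBlocks₁₁
  set B : Matrix (Fin n) Unit F := g'.toBlocks₁₂
  set C : Matrix Unit (Fin n) F := g'.toBlocks₂₁
  set D : Matrix Unit Unit F := g'.toBlocks₂₂ with hD
  have hg'eq : g' = fromBlocks A B C D := (fromBlocks_toBlocks g').symm
  have hDdet : IsUnit D.det := by
    rw [det_unique]
    exact hne.isUnit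
  let _ : Invertible D := D.invertibleOfIsUnitDet hDdet
  have hinv : (⅟D) () () = (g' (Sum.inr ()) (Sum.inr ()))⁻¹ := by
    have h1 : (⅟D * D) () () = 1 := by rw [invOf_mul_self]; rfl
    rw [Matrix.mul_apply] at h1
    simp only [Finset.univ_unique, Finset.sum_singleton] at h1
    exact eq_inv_of_mul_eq_one_left h1
  obtain ⟨k', h', d', hk', hh', hS⟩ := H (A - B * ⅟D * C)
  let B' : Matrix (Fin n) Unit V := Matrix.of fun i _ => ⟨_, hdiv (Sum.inl i) (Sum.inr ())⟩
  let C' : Matrix Unit (Fin n) V := Matrix.of fun _ j => ⟨_, hdiv (Sum.inr ()) (Sum.inl j)⟩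
  have hB' : B * ⅟D = B'.map V.subtype := by
    ext i j
    rw [Matrix.mul_apply]
    simp only [Finset.univ_unique, Finset.sum_singleton, Matrix.map_apply]
    cases j
    change B i () * (⅟D) () () = _
    rw [hinv]
    rfl
  have hC' : ⅟D * C = C'.map V.subtype := by
    ext i j
    rw [Matrix.mul_apply]
    simp only [Finset.univ_unique, Finset.sum_singleton, Matrix.map_apply]
    cases i
    change (⅟D) () () * C () j = _
    rw [hinv, mul_comm]
    rfl
  refine ⟨fromBlocks 1 B' 0 1 * fromBlocks k' 0 0 1, fromBlocks h' 0 0 1 * fromBlocks 1 0 C' 1,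
    Sum.elim d' (fun _ => g' (Sum.inr ()) (Sum.inr ())), ?_, ?_, ?_⟩
  · rw [det_mul, det_fromBlocks_zero₂₁, det_fromBlocks_zero₂₁]
    simpa using hk'
  · rw [det_mul, det_fromBlocks_zero₁₂, det_fromBlocks_zero₁₂]
    simpa using hh'
  · have e1 : D = diagonal (fun _ : Unit => g' (Sum.inr ()) (Sum.inr ())) := by
      ext i j
      cases i; cases j
      simp [hD, toBlocks₂₂]
    have e2 : (diagonal (Sum.elim d' (fun _ : Unit => g' (Sum.inr ()) (Sum.inr ()))) :
        Matrix (Fin n ⊕ Unit) (Fin n ⊕ Unit) F) = fromBlocks (diagonal d') 0 0 D := by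
      rw [e1, fromBlocks_diagonal]
    have e3 : (fromBlocks 1 B' 0 1 * fromBlocks k' 0 0 1 :
        Matrix (Fin n ⊕ Unit) (Fin n ⊕ Unit) V).map V.subtype =
        fromBlocks 1 (B * ⅟D) 0 1 * fromBlocks (k'.map V.subtype) 0 0 1 := by
      rw [Matrix.map_mul, fromBlocks_map, fromBlocks_map, hB']
      simp only [Matrix.map_one _ (map_zero V.subtype) (map_one V.subtype),
        Matrix.map_zero _ (map_zero V.subtype)]
    have e4 : (fromBlocks h' 0 0 1 * fromBlocks 1 0 C' 1 :
        Matrix (Fin n ⊕ Unit) (Fin n ⊕ Unit) V).map V.subtype =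
        fromBlocks (h'.map V.subtype) 0 0 1 * fromBlocks 1 0 (⅟D * C) 1 := by
      rw [Matrix.map_mul, fromBlocks_map, fromBlocks_map, hC']
      simp only [Matrix.map_one _ (map_zero V.subtype) (map_one V.subtype),
        Matrix.map_zero _ (map_zero V.subtype)]
    rw [e2, e3, e4, hg'eq, fromBlocks_eq_of_invertible₂₂, hS]
    have e5 : fromBlocks (k'.map V.subtype * diagonal d' * h'.map V.subtype) 0 0 D =
        fromBlocks (k'.map V.subtype) 0 0 1 * fromBlocks (diagonal d') 0 0 D *
          fromBlocks (h'.map V.subtype) 0 0 1 := by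
      rw [fromBlocks_multiply, fromBlocks_multiply]
      simp
    rw [e5]
    simp only [Matrix.mul_assoc]

lemma hasSmith_fin (n : ℕ) : HasSmith V (Fin n) := by
  induction n with
  | zero =>
    intro g
    refine ⟨1, 1, 0, by simp, by simp, ?_⟩
    ext i
    exact i.elim0
  | succ n ih =>
    exact (hasSmith_step ih).equiv
      ((Equiv.sumCongr (Equiv.refl _) (Equiv.ofUnique Unit (Fin 1))).trans finSumFinEquiv)

end Pool.Agent.Helper10.GIT
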