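import Mathlib
import Pool.Agent.Helper10.GIT.Defs
import Pool.Agent.Helper10.GIT.Smith

/-!
# From non-integrality to a destabilising basis
-/

universe u

open Finset Matrix

namespace Pool.Agent.Helper10.GIT

/-- finitely many positive real numbers are positive for some rational linear form -/
lemma exists_rat_form {ι : Type*} [Finite ι] (x : ι → ℝ) :
    ∃ φ : ℝ →ₗ[ℚ] ℚ, ∀ i, 0 < x i → 0 < φ (x i) := by
  classical
  cases nonempty_fintype ι
  let E : Submodule ℚ ℝ := Submodule.span ℚ (Set.range x)
  have hE : Module.Finite ℚ E := Module.Finite.span_of_finite ℚ (Set.finite_range x)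
  let b := Module.finBasis ℚ E
  have hxE : ∀ i, x i ∈ E := fun i => Submodule.subset_span ⟨i, rfl⟩
  let c : ι → Fin (Module.finrank ℚ E) → ℚ := fun i j => b.repr ⟨x i, hxE i⟩ j
  have hx : ∀ i, x i = ∑ j, (c i j : ℝ) * (b j : ℝ) := by
    intro i
    have h1 := congrArg Subtype.val (b.sum_repr ⟨x i, hxE i⟩)
    simp only [Submodule.coe_sum, Submodule.coe_smul] at h1
    rw [← h1]
    refine sum_congr rfl fun j _ => ?_
    rw [Rat.smul_def]
  let U : Set (Fin (Module.finrank ℚ E) → ℝ) :=
    ⋂ i : ι, {y | 0 < x i → 0 < ∑ j, (c i j : ℝ) * y j}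
  have hU : IsOpen U := by
    refine isOpen_iInter_of_finite fun i => ?_
    by_cases hi : 0 < x i
    · simp only [hi, true_implies]
      exact isOpen_lt continuous_const
        (continuous_finsetSum _ fun j _ => continuous_const.mul (continuous_apply j))
    · simp only [hi, false_implies, Set.ofPred_true, isOpen_univ]
  have hbU : (fun j => (b j : ℝ)) ∈ U := by
    refine Set.mem_iInter.mpr fun i => ?_
    change 0 < x i → 0 < ∑ j, (c i j : ℝ) * (b j : ℝ)
    rw [← hx i]
    exact id
  have hdense : DenseRange (Pi.map (fun _ : Fin (Module.finrank ℚ E) => ((↑) : ℚ → ℝ))) :=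
    DenseRange.piMap fun _ => Rat.denseRange_cast
  obtain ⟨q, hq⟩ := hdense.exists_mem_open hU ⟨_, hbU⟩
  obtain ⟨φ, hφ⟩ := LinearMap.exists_extend (b.constr ℚ q)
  refine ⟨φ, fun i hi => ?_⟩
  have h1 : φ (x i) = ∑ j, c i j * q j := by
    have h2 : φ (x i) = (φ ∘ₗ E.subtype) ⟨x i, hxE i⟩ := rfl
    rw [h2, hφ, Module.Basis.constr_apply_fintype]
    rfl
  have h3 := Set.mem_iInter.mp hq i hi
  rw [h1]
  have h4 : (0 : ℝ) < ((∑ j, c i j * q j : ℚ) : ℝ) := by
    push_cast
    exact h3
  exact_mod_cast h4

variable {m : ℕ} {n : Fin m → ℕ}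

lemma exists_nat_comb {T : Set (Idx n)} (h : unif n ∈ convexHull ℝ (wt '' T))
    {e : Fin m → ℕ} {N : ℕ} (he : ∀ t, e t * n t = N) (hN : 0 < N) :
    ∃ (ι : Type) (_ : Fintype ι) (v : ι → Idx n) (c : ι → ℕ) (L : ℕ), 0 < L ∧
      (∀ i, v i ∈ T) ∧ ∀ t a, ∑ i, (if v i t = a then c i else 0) = L * e t := by
  classical
  rw [mem_convexHull_iff_exists_fintype] at h
  obtain ⟨ι, hι, x, z, hx0, hx1, hz, hsum⟩ := h
  choose v hvT hvz using hz
  obtain ⟨φ, hφ⟩ := exists_rat_form (ι := Option ι) (fun o => o.elim 1 x)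
  have hφ1 : 0 < φ 1 := hφ none one_pos
  have hφx : ∀ i, 0 ≤ φ (x i) := by
    intro i
    rcases (hx0 i).eq_or_lt with h0 | h0
    · rw [← h0, map_zero]
    · exact (hφ (some i) h0).le
  -- the real identity
  have hreal : ∀ t a, ∑ i, (if v i t = a then x i else 0) = (n t : ℝ)⁻¹ := by
    intro t a
    have h1 := congrArg (fun y : WSpace n => y ⟨t, a⟩) hsum
    simp only [← hvz] at h1
    have h2 : (∑ i, x i • wt (v i)) ⟨t, a⟩ = ∑ i, (if v i t = a then x i else 0) := by
      rw [WithLp.ofLp_sum, Finset.sum_apply]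
      refine sum_congr rfl fun i _ => ?_
      simp [wt]
    rw [← h2]
    exact h1
  have hnpos : ∀ t, (0 : ℝ) < n t := by
    intro t
    have : n t ≠ 0 := by
      intro h0
      have := he t
      rw [h0, mul_zero] at this
      omega
    exact_mod_cast Nat.pos_of_ne_zero this
  have hrat : ∀ t a, (n t : ℚ) * ∑ i, (if v i t = a then φ (x i) else 0) = φ 1 := by
    intro t a
    have h1 : (n t : ℚ) • ∑ i, (if v i t = a then x i else 0) = 1 := by
      rw [hreal t a, Rat.smul_def]
      push_cast
      exact mul_inv_cancel₀ (hnpos t).ne'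
    have h2 := congrArg φ h1
    rw [map_smul, map_sum, smul_eq_mul] at h2
    rw [← h2]
    congr 1
    refine sum_congr rfl fun i _ => ?_
    split_ifs
    · rfl
    · rw [map_zero]
  -- clear denominators
  obtain ⟨d, hd0, hd⟩ : ∃ d : ℕ, 0 < d ∧ (∀ i, ∃ c : ℕ, (d : ℚ) * φ (x i) = c) ∧
      ∃ c : ℕ, (d : ℚ) * φ 1 = c := by
    have key : ∀ q : ℚ, 0 ≤ q → ∀ d : ℕ, q.den ∣ d → ∃ c : ℕ, (d : ℚ) * q = c := by
      rintro q hq d ⟨d', rfl⟩
      refine ⟨d' * q.num.toNat, ?_⟩
      have h1 : (q.num.toNat : ℚ) = q.num := by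
        have : (q.num.toNat : ℤ) = q.num := Int.toNat_of_nonneg (Rat.num_nonneg.mpr hq)
        exact_mod_cast this
      push_cast
      rw [h1]
      have h2 : (q.den : ℚ) * q = q.num := Rat.den_mul_eq_num q
      calc (q.den : ℚ) * d' * q = d' * (q.den * q) := by ring
        _ = _ := by rw [h2]
    refine ⟨(∏ i, (φ (x i)).den) * (φ 1).den, ?_, fun i => ?_, ?_⟩
    · exact Nat.mul_pos (prod_pos fun i _ => (φ (x i)).den_pos) (φ 1).den_pos
    · exact key _ (hφx i) _ (Dvd.dvd.mul_right (dvd_prod_of_mem _ (mem_univ i)) _)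
    · exact key _ hφ1.le _ (Dvd.intro_left _ rfl)
  obtain ⟨hdc, s, hs⟩ := hd
  choose c hc using hdc
  have hspos : 0 < s := by
    have : (0 : ℚ) < s := by
      rw [← hs]
      exact mul_pos (by exact_mod_cast hd0) hφ1
    exact_mod_cast this
  -- multiply everything by `N`
  refine ⟨ι, hι, v, fun i => N * c i, s, hspos, hvT, fun t a => ?_⟩
  have h1 : (n t : ℚ) * ((∑ i, (if v i t = a then N * c i else 0) : ℕ) : ℚ) =
      (n t : ℚ) * ((s * e t : ℕ) : ℚ) := by
    push_cast
    have h2 : ∀ i, ((if v i t = a then (N : ℚ) * (c i : ℚ) else 0) : ℚ) =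
        (N : ℚ) * d * (if v i t = a then φ (x i) else 0) := by
      intro i
      split_ifs
      · rw [← hc i]; ring
      · ring
    rw [sum_congr rfl fun i _ => h2 i, ← mul_sum]
    have h3 : (N : ℚ) = (e t : ℚ) * n t := by exact_mod_cast (he t).symm
    calc (n t : ℚ) * ((N : ℚ) * d * ∑ i, (if v i t = a then φ (x i) else 0))
        = (N : ℚ) * (d * ((n t : ℚ) * ∑ i, (if v i t = a then φ (x i) else 0))) := by ring
      _ = (N : ℚ) * (d * φ 1) := by rw [hrat t a]
      _ = (n t : ℚ) * ((s : ℚ) * e t) := by rw [hs, h3]; ring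
  have h4 : (n t : ℚ) ≠ 0 := by
    have := (hnpos t).ne'
    exact_mod_cast this
  exact_mod_cast mul_left_cancel₀ h4 h1

variable (n) in
/-- the variables: the entries of the generic matrices -/
abbrev GV : Type := Σ t : Fin m, Fin (n t) × Fin (n t)

variable (n) in
/-- the generic matrices -/
noncomputable def gen (R : Type*) [CommRing R] : Mats n (MvPolynomial (GV n) R) :=
  fun t => Matrix.of fun a b => MvPolynomial.X ⟨t, (a, b)⟩

/-- the coordinates of the translates of `z` by the generic matrices -/
noncomputable def coord {R : Type*} [CommRing R] (z : Idx n → R) (w : Idx n) :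
    MvPolynomial (GV n) R :=
  act (gen n R) (fun w' => MvPolynomial.C (z w')) w

/-- the algebra generated by the coordinates of the translates of the tensors in `M` -/
noncomputable def coordAlg {R : Type*} [CommRing R] (M : Set (Idx n → R)) :
    Subalgebra R (MvPolynomial (GV n) R) :=
  Algebra.adjoin R {f | ∃ z ∈ M, ∃ w, f = coord z w}

variable (n) in
/-- a product of powers of generic determinants -/
noncomputable def genDet (R : Type*) [CommRing R] (e : Fin m → ℕ) : MvPolynomial (GV n) R :=
  ∏ t, (gen n R t).det ^ e t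

lemma act_map {R R' : Type*} [CommRing R] [CommRing R'] (f : R →+* R') (g : Mats n R)
    (z : Idx n → R) : act (fun t => (g t).map f) (fun w => f (z w)) = fun w => f (act g z w) := by
  funext w
  rw [act_apply, act_apply, map_sum]
  refine sum_congr rfl fun w' _ => ?_
  rw [map_mul, map_prod]
  rfl

lemma act_diagonal {R : Type*} [CommRing R] (d : ∀ t, Fin (n t) → R) (z : Idx n → R) (w : Idx n) :
    act (fun t => diagonal (d t)) z w = (∏ t, d t (w t)) * z w := by
  rw [act_apply, sum_eq_single w]
  · simp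
  · intro w' _ hne
    obtain ⟨t, ht⟩ := Function.ne_iff.mp hne
    rw [prod_eq_zero (mem_univ t), zero_mul]
    rw [diagonal_apply_ne _ (Ne.symm ht)]
  · intro h; exact absurd (mem_univ w) h

lemma supp_image {Ω κ : Type*} [CommRing Ω] [CommRing κ] (f : Ω → κ) (h : Mats n κ)
    (M : Set (Idx n → Ω)) : supp h ((fun z w => f (z w)) '' M) =
      {w | ∃ z ∈ M, act h (fun w' => f (z w')) w ≠ 0} := by
  ext w
  constructor
  · rintro ⟨_, ⟨z, hz, rfl⟩, hw⟩
    exact ⟨z, hz, hw⟩
  · rintro ⟨z, hz, hw⟩
    exact ⟨_, ⟨z, hz, rfl⟩, hw⟩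

/-- If a product of powers of generic determinants is not integral over the algebra of
coordinates, then some bases over an extension field destabilise `M`. -/
theorem exists_bad {Ω : Type u} [Field Ω] (M : Set (Idx n → Ω)) {e : Fin m → ℕ} {N : ℕ}
    (he : ∀ t, e t * n t = N) (hN : 0 < N)
    (hD : ¬ IsIntegral (coordAlg M) (genDet n Ω e)) :
    ∃ (κ : Type u) (_ : Field κ) (_ : Algebra Ω κ) (h : Mats n κ),
      (∀ t, IsUnit (h t).det) ∧ Bad h ((fun z w => algebraMap Ω κ (z w)) '' M) := by
  classical
  set R := MvPolynomial (GV n) Ω with hR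
  let F := FractionRing R
  set ι : R →+* F := algebraMap R F with hι
  have hιinj : Function.Injective ι := IsFractionRing.injective R F
  -- the valuation ring
  obtain ⟨V, hV, hDV⟩ : ∃ V : ValuationSubring F, (∀ f ∈ coordAlg M, ι f ∈ V) ∧
      ι (genDet n Ω e) ∉ V := by
    have h1 : ι (genDet n Ω e) ∉ (integralClosure (coordAlg M) F).toSubring := by
      intro h2
      apply hD
      have h3 : IsIntegral (coordAlg M) (ι (genDet n Ω e)) := h2
      exact (isIntegral_algebraMap_iff hιinj).mp h3
    have h2 : IsIntegrallyClosedIn (integralClosure (coordAlg M) F).toSubring F :=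
      inferInstanceAs (IsIntegrallyClosedIn (integralClosure (coordAlg M) F) F)
    obtain ⟨V, hV, hx⟩ := Subring.exists_le_valuationSubring_of_isIntegrallyClosedIn h1
    refine ⟨V, fun f hf => hV ?_, hx⟩
    change ι f ∈ integralClosure (coordAlg M) F
    exact (integralClosure (coordAlg M) F).algebraMap_mem ⟨f, hf⟩
  -- scalars
  have hΩ : ∀ a : Ω, ι (MvPolynomial.C a) ∈ V := fun a =>
    hV _ ((coordAlg M).algebraMap_mem a)
  let ψ : Ω →+* V := (ι.comp MvPolynomial.C).codRestrict V.toSubring hΩ
  -- Smith form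
  let G : Mats n F := fun t => (gen n Ω t).map ι
  choose k h d hk hh hG using fun t => hasSmith_fin (V := V) (n t) (G t)
  have hG' : G = (fun t => (k t).map V.subtype) * (fun t => diagonal (d t)) *
      (fun t => (h t).map V.subtype) := funext hG
  -- coordinates
  have hcoord : ∀ z ∈ M, ∀ w, (∏ t, d t (w t)) *
      ((act h (fun w' => ψ (z w')) w : V) : F) ∈ V := by
    intro z hz w
    have h1 : ∀ w, act G (fun w' => ι (MvPolynomial.C (z w'))) w ∈ V := by
      intro w
      have h2 := hV _ (Algebra.subset_adjoin ⟨z, hz, w, rfl⟩)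
      have h3 := congrFun (act_map ι (gen n Ω) (fun w' => MvPolynomial.C (z w'))) w
      rw [h3]
      exact h2
    let u : Idx n → V := fun w => ⟨_, h1 w⟩
    have h4 : act (fun t => (k t).map V.subtype) (act (fun t => diagonal (d t))
        (fun w => V.subtype (act h (fun w' => ψ (z w')) w))) = fun w => V.subtype (u w) := by
      rw [← act_map V.subtype h, ← act_mul, ← act_mul, ← hG']
      rfl
    have h5 := congrArg (act (fun t => ((k t)⁻¹).map V.subtype)) h4
    rw [← act_mul, act_map] at h5
    have h6 : (fun t => ((k t)⁻¹).map V.subtype) * (fun t => (k t).map V.subtype) =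
        (1 : Mats n F) := by
      funext t
      rw [Pi.mul_apply, ← Matrix.map_mul, nonsing_inv_mul _ (hk t),
        Matrix.map_one _ (map_zero _) (map_one _)]
      rfl
    rw [h6, act_one] at h5
    have h7 := congrFun h5 w
    rw [act_diagonal] at h7
    change (∏ t, d t (w t)) * V.subtype _ ∈ V
    rw [h7]
    exact Subtype.mem _
  -- the residue field
  let κ := IsLocalRing.ResidueField V
  let res : V →+* κ := IsLocalRing.residue V
  let _ : Algebra Ω κ := (res.comp ψ).toAlgebra
  refine ⟨κ, inferInstance, inferInstance, fun t => (h t).map res, fun t => ?_, ?_⟩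
  · have h1 : ((h t).map res).det = res (h t).det := (RingHom.map_det res (h t)).symm
    rw [h1]
    exact (hh t).map res
  · intro hbad
    obtain ⟨ι', hι', v, c, L, hL, hv, hsum⟩ := exists_nat_comb hbad he hN
    -- the weights of the support are in the valuation ring
    have hsupp : ∀ i, (∏ t, d t (v i t)) ∈ V := by
      intro i
      have h1 := hv i
      rw [supp_image] at h1
      obtain ⟨z, hz, hw⟩ := h1
      have h2 : act (fun t => (h t).map res) (fun w' => algebraMap Ω κ (z w')) (v i) =
          res (act h (fun w' => ψ (z w')) (v i)) := congrFun (act_map res h _) (v i)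
      rw [h2] at hw
      have h3 : IsUnit (act h (fun w' => ψ (z w')) (v i)) := by
        by_contra h4
        exact hw ((IsLocalRing.residue_eq_zero_iff _).mpr h4)
      have h5 := hcoord z hz (v i)
      obtain ⟨y, hy⟩ := h3
      have h6 : (∏ t, d t (v i t)) =
          (∏ t, d t (v i t)) * ((act h (fun w' => ψ (z w')) (v i) : V) : F) *
            ((y⁻¹ : Vˣ) : V) := by
        rw [← hy, mul_assoc]
        have : ((y : V) : F) * ((y⁻¹ : Vˣ) : V) = 1 := by
          rw [← MulMemClass.coe_mul, Units.mul_inv]; rfl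
        rw [this, mul_one]
      rw [h6]
      exact V.mul_mem _ _ h5 (Subtype.mem _)
    have hprod : (∏ i, (∏ t, d t (v i t)) ^ c i) ∈ V :=
      prod_mem fun i _ => pow_mem (hsupp i) _
    have heq : (∏ i, (∏ t, d t (v i t)) ^ c i) = (∏ t, (∏ a, d t a) ^ e t) ^ L := by
      calc (∏ i, (∏ t, d t (v i t)) ^ c i) = ∏ t, ∏ i, d t (v i t) ^ c i := by
            rw [prod_comm]
            exact prod_congr rfl fun i _ => (prod_pow _ _ _).symm
        _ = ∏ t, ∏ a, d t a ^ (L * e t) := by
            refine prod_congr rfl fun t _ => ?_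
            rw [← prod_fiberwise (s := univ) (g := fun i => v i t)]
            refine prod_congr rfl fun a _ => ?_
            rw [← hsum t a, ← prod_pow_eq_pow_sum, prod_filter]
            refine prod_congr rfl fun i _ => ?_
            split_ifs with h1
            · rw [h1]
            · rw [pow_zero]
        _ = _ := by
            rw [← prod_pow]
            refine prod_congr rfl fun t _ => ?_
            rw [prod_pow, ← pow_mul, mul_comm]
    rw [heq] at hprod
    have hD' : (∏ t, (∏ a, d t a) ^ e t) ∈ V := by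
      rw [← V.valuation_le_one_iff] at hprod ⊢
      rw [map_pow] at hprod
      exact (pow_le_one_iff hL.ne').mp hprod
    apply hDV
    have h1 : ι (genDet n Ω e) = (∏ t, (((k t).det * (h t).det : V) : F) ^ e t) *
        ∏ t, (∏ a, d t a) ^ e t := by
      rw [genDet, map_prod, ← prod_mul_distrib]
      refine prod_congr rfl fun t _ => ?_
      rw [map_pow, ← mul_pow]
      congr 1
      have h2 : ι (gen n Ω t).det = (G t).det := RingHom.map_det ι _
      have h3 : ((k t).map V.subtype).det = (((k t).det : V) : F) :=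
        (RingHom.map_det V.subtype (k t)).symm
      have h4 : ((h t).map V.subtype).det = (((h t).det : V) : F) :=
        (RingHom.map_det V.subtype (h t)).symm
      rw [h2, hG t, det_mul, det_mul, det_diagonal, h3, h4]
      push_cast
      ring
    rw [h1]
    exact V.mul_mem _ _ (prod_mem fun t _ => pow_mem (Subtype.mem _) _) hD'

end Pool.Agent.Helper10.GIT
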