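import Mathlib
import Pool.Agent.Helper10.GIT.Fischer
import Pool.Agent.Helper10.GIT.Valuation

/-!
# Powers of generic determinants and the Fischer pairing
-/

open Finset MvPolynomial Matrix

namespace Pool.Agent.Helper10.GIT

variable {m : ℕ} {n : Fin m → ℕ}

section Subst

variable {R : Type*} [CommRing R]

/-- the matrix of the substitution `gen t ↦ A t * gen t` -/
def big (A : Mats n R) : Matrix (GV n) (GV n) R :=
  blockDiagonal' fun t => kroneckerMap (· * ·) (A t) (1 : Matrix (Fin (n t)) (Fin (n t)) R)

lemma big_transpose (A : Mats n R) : (big A).transpose = big fun t => (A t).transpose := by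
  unfold big
  rw [blockDiagonal'_transpose]
  congr 1
  funext t
  ext ⟨a, b⟩ ⟨c, d⟩
  change A t c a * (1 : Matrix (Fin (n t)) (Fin (n t)) R) d b =
    A t c a * (1 : Matrix (Fin (n t)) (Fin (n t)) R) b d
  congr 1
  rw [Matrix.one_apply, Matrix.one_apply]
  simp only [eq_comm]

lemma subst_big_X (A : Mats n R) (t : Fin m) (a b : Fin (n t)) :
    subst (big A) (X ⟨t, (a, b)⟩) = ∑ c, A t a c • X ⟨t, (c, b)⟩ := by
  rw [subst_X, Fintype.sum_sigma, sum_eq_single t]
  · rw [Fintype.sum_prod_type]
    refine sum_congr rfl fun c _ => ?_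
    rw [sum_eq_single b]
    · rw [big, blockDiagonal'_apply_eq, kroneckerMap_apply, Matrix.one_apply_eq, mul_one]
    · intro d _ hd
      rw [big, blockDiagonal'_apply_eq, kroneckerMap_apply, Matrix.one_apply_ne hd.symm, mul_zero,
        zero_smul]
    · intro h; exact absurd (mem_univ b) h
  · intro t' _ ht
    refine sum_eq_zero fun s _ => ?_
    rw [big, blockDiagonal'_apply_ne _ _ _ ht.symm, zero_smul]
  · intro h; exact absurd (mem_univ t) h

lemma subst_big_gen (A : Mats n R) (t : Fin m) :
    (gen n R t).map (subst (big A)) = (A t).map C * gen n R t := by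
  ext1 a b
  rw [Matrix.map_apply, Matrix.mul_apply]
  change subst (big A) (X ⟨t, (a, b)⟩) = _
  rw [subst_big_X]
  refine sum_congr rfl fun c _ => ?_
  rw [smul_eq_C_mul]
  rfl

lemma subst_big_det (A : Mats n R) (t : Fin m) :
    subst (big A) (gen n R t).det = C (A t).det * (gen n R t).det := by
  have h1 : subst (big A) (gen n R t).det = ((gen n R t).map (subst (big A))).det :=
    AlgHom.map_det _ _
  have h2 : ((A t).map C).det = (C (A t).det : MvPolynomial (GV n) R) :=
    (RingHom.map_det C (A t)).symm
  rw [h1, subst_big_gen, det_mul, h2]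

/-- the factor by which `genDet` is multiplied -/
def cfac (e : Fin m → ℕ) (A : Mats n R) : R := ∏ t, (A t).det ^ e t

lemma subst_big_genDet (e : Fin m → ℕ) (A : Mats n R) :
    subst (big A) (genDet n R e) = C (cfac e A) * genDet n R e := by
  unfold genDet cfac
  rw [map_prod, map_prod, ← prod_mul_distrib]
  refine prod_congr rfl fun t _ => ?_
  rw [map_pow, subst_big_det, mul_pow, map_pow]

/-- the point of `GV n → R` given by a tuple of matrices -/
def pt (A : Mats n R) : GV n → R := fun s => A s.1 s.2.1 s.2.2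

lemma eval_gen (A : Mats n R) (t : Fin m) : (gen n R t).map (eval (pt A)) = A t := by
  ext a b
  rw [Matrix.map_apply]
  change eval (pt A) (X ⟨t, (a, b)⟩) = _
  rw [eval_X]
  rfl

lemma eval_genDet (e : Fin m → ℕ) (A : Mats n R) :
    eval (pt A) (genDet n R e) = cfac e A := by
  unfold genDet cfac
  rw [map_prod]
  refine prod_congr rfl fun t _ => ?_
  rw [map_pow, RingHom.map_det, RingHom.mapMatrix_apply, eval_gen]

lemma eval_subst_big (A : Mats n R) (q : MvPolynomial (GV n) R) :
    eval (pt 1) (subst (big A) q) = eval (pt A) q := by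
  induction q using MvPolynomial.induction_on with
  | C a => rw [show subst (big A) (C a) = C a from AlgHom.commutes _ a, eval_C, eval_C]
  | add p q hp hq => rw [map_add, map_add, map_add, hp, hq]
  | mul_X p k hp =>
    rw [map_mul, map_mul, map_mul, hp]
    congr 1
    obtain ⟨t, a, b⟩ := k
    rw [subst_big_X, map_sum, eval_X, sum_eq_single b]
    · rw [smul_eval, eval_X]
      simp [pt]
    · intro c _ hc
      rw [smul_eval, eval_X]
      simp [pt, Matrix.one_apply_ne hc]
    · intro h; exact absurd (mem_univ b) h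

end Subst

section Field

variable {Ω : Type*} [Field Ω]

lemma det_gen_ne_zero (t : Fin m) : (gen n Ω t).det ≠ 0 := by
  intro h
  have h1 : eval (pt (1 : Mats n Ω)) (gen n Ω t).det = 0 := by rw [h, map_zero]
  rw [RingHom.map_det, RingHom.mapMatrix_apply, eval_gen, Pi.one_apply, det_one] at h1
  exact one_ne_zero h1

lemma genDet_ne_zero (e : Fin m → ℕ) : genDet n Ω e ≠ 0 :=
  prod_ne_zero_iff.mpr fun t _ => pow_ne_zero _ (det_gen_ne_zero t)

lemma fis_ext [CharZero Ω] {p p' : MvPolynomial (GV n) Ω} (h : ∀ q, fis p q = fis p' q) :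
    p = p' := by
  ext α
  have h1 := h (monomial α 1)
  rw [fis_comm, fis_comm p', fis_monomial, fis_monomial] at h1
  have h2 : (1 : Ω) * (mfact α : Ω) ≠ 0 := by
    rw [one_mul]
    exact_mod_cast (mfact_pos α).ne'
  exact mul_left_cancel₀ h2 h1

/-- the semi-invariance of the pairing with powers of generic determinants -/
theorem fis_genDet_pow [CharZero Ω] (e : Fin m → ℕ) (j k : ℕ) :
    ∃ β : Ω, ∀ Q, fis (genDet n Ω e ^ (j + k)) (Q * genDet n Ω e ^ k) =
      β * fis (genDet n Ω e ^ j) Q := by
  classical
  set D := genDet n Ω e with hD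
  let l : MvPolynomial (GV n) Ω →ₗ[Ω] Ω := (fis (D ^ (j + k))).comp (LinearMap.mulRight Ω (D ^ k))
  have hl : ∀ Q, l Q = fis (D ^ (j + k)) (Q * D ^ k) := fun Q => rfl
  obtain ⟨h, hh⟩ := exists_fis_rep l ((D ^ (j + k)).support.biUnion fun β => Finset.Iic β) (by
    intro α hα
    rw [hl, fis_eq_sum]
    refine sum_eq_zero fun β hβ => ?_
    rw [coeff_monomial_mul', if_neg, mul_zero]
    intro hle
    exact hα (mem_biUnion.mpr ⟨β, hβ, mem_Iic.mpr hle⟩))
  have key : ∀ A : Mats n Ω, cfac e A ≠ 0 → subst (big A) h = C (cfac e A ^ j) * h := by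
    intro A hA
    refine fis_ext fun Q => ?_
    have hT : cfac e (fun t => (A t).transpose) = cfac e A := by
      unfold cfac
      simp only [det_transpose]
    have h1 : ∀ i : ℕ, subst (big fun t => (A t).transpose) (D ^ i) = C (cfac e A ^ i) * D ^ i := by
      intro i
      rw [map_pow, hD, subst_big_genDet, hT, mul_pow, map_pow]
    have h2 : subst (big A) (D ^ (j + k)) = C (cfac e A ^ (j + k)) * D ^ (j + k) := by
      rw [map_pow, hD, subst_big_genDet, mul_pow, map_pow]
    have h3 : cfac e A ^ k * fis (subst (big A) h) Q =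
        cfac e A ^ k * fis (C (cfac e A ^ j) * h) Q := by
      rw [fis_subst, big_transpose, hh, hl]
      calc cfac e A ^ k * fis (D ^ (j + k)) (subst (big fun t => (A t).transpose) Q * D ^ k)
          = fis (D ^ (j + k)) (subst (big fun t => (A t).transpose) (Q * D ^ k)) := by
            rw [map_mul (subst _), h1, ← smul_eq_C_mul, mul_smul_comm, map_smul, smul_eq_mul]
        _ = fis (subst (big A) (D ^ (j + k))) (Q * D ^ k) := by
            rw [fis_subst, big_transpose]
        _ = cfac e A ^ (j + k) * l Q := by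
            rw [h2, ← smul_eq_C_mul, map_smul, LinearMap.smul_apply, smul_eq_mul, hl]
        _ = _ := by
            rw [← smul_eq_C_mul, map_smul, LinearMap.smul_apply, smul_eq_mul, hh, pow_add]
            ring
    exact mul_left_cancel₀ (pow_ne_zero k hA) h3
  have hinf : Infinite Ω := inferInstance
  have hfin : h = C (eval (pt 1) h) * D ^ j := by
    have h1 : (h - C (eval (pt 1) h) * D ^ j) * ∏ t, (gen n Ω t).det = 0 := by
      refine MvPolynomial.funext fun x => ?_
      let A : Mats n Ω := fun t => Matrix.of fun a b => x ⟨t, (a, b)⟩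
      have hx : x = pt A := rfl
      rw [map_zero, map_mul, hx]
      by_cases hA : cfac (fun _ => 1) A = 0
      · have h2 : eval (pt A) (∏ t, (gen n Ω t).det) = cfac (fun _ => 1) A := by
          rw [← eval_genDet]
          simp [genDet]
        rw [h2, hA, mul_zero]
      · have h2 : cfac e A ≠ 0 := by
          have h3 : ∀ t, (A t).det ≠ 0 := by
            intro t ht
            exact hA (prod_eq_zero (mem_univ t) (by rw [ht, pow_one]))
          exact prod_ne_zero_iff.mpr fun t _ => pow_ne_zero _ (h3 t)
        have h3 := congrArg (eval (pt (1 : Mats n Ω))) (key A h2)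
        rw [eval_subst_big, map_mul, eval_C] at h3
        rw [map_sub, map_mul, map_pow, eval_C, hD, eval_genDet, h3]
        ring
    have h2 : ∏ t, (gen n Ω t).det ≠ 0 := prod_ne_zero_iff.mpr fun t _ => det_gen_ne_zero t
    exact sub_eq_zero.mp ((mul_eq_zero.mp h1).resolve_right h2)
  refine ⟨eval (pt 1) h, fun Q => ?_⟩
  rw [← hl, ← hh, hfin, ← smul_eq_C_mul, map_smul, LinearMap.smul_apply, smul_eq_mul]
  simp [hD, eval_genDet, cfac]

end Field

end Pool.Agent.Helper10.GIT
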