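import Mathlib
import Pool.Agent.Helper10.GIT.Cayley

/-!
# If all products of determinants vanish, the generic determinant is not integral
-/

open Finset MvPolynomial Matrix

namespace Pool.Agent.Helper10.GIT

variable {m : ℕ} {n : Fin m → ℕ}

lemma eps_eq {R : Type*} [CommRing R] {k : ℕ} (f : Fin k → Fin k) :
    (eps f : R) = ∑ π : Equiv.Perm (Fin k), ((Equiv.Perm.sign π : ℤ) : R) *
      ∏ i, (if π i = f i then 1 else 0) := by
  unfold eps
  rw [← det_transpose, det_apply']
  refine sum_congr rfl fun π _ => ?_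
  congr 1
  refine prod_congr rfl fun i _ => ?_
  rw [Matrix.transpose_apply, Matrix.of_apply]
  simp only [eq_comm]

lemma det_gen_eq {R : Type*} [CommRing R] (t : Fin m) :
    (gen n R t).det = ∑ π : Equiv.Perm (Fin (n t)), ((Equiv.Perm.sign π : ℤ) : R) •
      ∏ i, X ⟨t, (i, π i)⟩ := by
  rw [← det_transpose, det_apply']
  refine sum_congr rfl fun π _ => ?_
  rw [smul_eq_C_mul, map_intCast]
  rfl

/-- `M` is killed by all products of determinants -/
def DetZero {R : Type*} [CommRing R] (M : Set (Idx n → R)) : Prop :=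
  ∀ (N : ℕ) (e : Fin m → ℕ) (σ : ∀ t, Fin (e t) × Fin (n t) ≃ Fin N), 0 < N →
    ∀ z : Fin N → Idx n → R, (∀ r, z r ∈ M) → detForm σ z = 0

variable {Ω : Type*} [Field Ω]

/-- expansion of a power of the generic determinant -/
lemma genDet_pow_eq (e : Fin m → ℕ) (j : ℕ) :
    genDet n Ω e ^ j = ∑ G : (∀ s : (Σ t : Fin m, Fin (e t * j)), Equiv.Perm (Fin (n s.1))),
      (∏ s, ((Equiv.Perm.sign (G s) : ℤ) : Ω)) •
        ∏ p : (Σ s : (Σ t : Fin m, Fin (e t * j)), Fin (n s.1)),
          X ⟨p.1.1, (p.2, G p.1 p.2)⟩ := by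
  have h1 : genDet n Ω e ^ j = ∏ s : (Σ t : Fin m, Fin (e t * j)), (gen n Ω s.1).det := by
    rw [Fintype.prod_sigma, genDet, ← prod_pow]
    refine prod_congr rfl fun t _ => ?_
    change _ = ∏ _y : Fin (e t * j), (gen n Ω t).det
    rw [prod_const, card_univ, Fintype.card_fin, pow_mul]
  rw [h1, prod_congr rfl fun s _ => det_gen_eq s.1, prod_univ_sum, Fintype.piFinset_univ]
  refine sum_congr rfl fun G _ => ?_
  rw [prod_smul]
  congr 1
  exact (Fintype.prod_sigma fun p : (Σ s : (Σ t : Fin m, Fin (e t * j)), Fin (n s.1)) =>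
    (X ⟨p.1.1, (p.2, G p.1 p.2)⟩ : MvPolynomial (GV n) Ω)).symm

lemma coord_prod_eq {s : ℕ} (z : Fin s → Idx n → Ω) (w : Fin s → Idx n) :
    ∏ r, coord (z r) (w r) = ∑ W : Fin s → Idx n, (∏ r, z r (W r)) •
      ∏ q : Fin s × Fin m, X ⟨q.2, (w q.1 q.2, W q.1 q.2)⟩ := by
  have h1 : ∀ r, coord (z r) (w r) = ∑ w' : Idx n, z r w' • ∏ t, X ⟨t, (w r t, w' t)⟩ := by
    intro r
    unfold coord
    rw [act_apply]
    refine sum_congr rfl fun w' _ => ?_
    rw [smul_eq_C_mul, mul_comm]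
    rfl
  rw [prod_congr rfl fun r _ => h1 r, prod_univ_sum, Fintype.piFinset_univ]
  refine sum_congr rfl fun W _ => ?_
  rw [prod_smul, Fintype.prod_prod_type]

/-- the pairing with products of coordinates vanishes -/
lemma fis_genDet_coord [CharZero Ω] {M : Set (Idx n → Ω)} (hM : DetZero M) (hm : 0 < m)
    {e : Fin m → ℕ} (he : ∀ t, 0 < e t) (hn : ∀ t, 0 < n t) {j : ℕ} (hj : 0 < j) {s : ℕ}
    (z : Fin s → Idx n → Ω) (hz : ∀ r, z r ∈ M) (w : Fin s → Idx n) :
    fis (genDet n Ω e ^ j) (∏ r, coord (z r) (w r)) = 0 := by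
  classical
  rw [genDet_pow_eq, coord_prod_eq]
  simp only [map_sum, LinearMap.sum_apply, map_smul, LinearMap.smul_apply, smul_eq_mul,
    fis_prod_X]
  -- exchange the sums
  have hswap : ∀ (F : (∀ s : (Σ t : Fin m, Fin (e t * j)), Equiv.Perm (Fin (n s.1))) →
      (Fin s → Idx n) → ((Σ s : (Σ t : Fin m, Fin (e t * j)), Fin (n s.1)) ≃ Fin s × Fin m) → Ω)
      (a : (∀ s : (Σ t : Fin m, Fin (e t * j)), Equiv.Perm (Fin (n s.1))) → Ω)
      (b : (Fin s → Idx n) → Ω),
      (∀ τ, ∑ W, b W * ∑ G, a G * F G W τ = 0) →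
      ∑ W, b W * ∑ G, a G * ∑ τ, F G W τ = 0 := by
    intro F a b h
    have : ∑ W, b W * ∑ G, a G * ∑ τ, F G W τ = ∑ τ, ∑ W, b W * ∑ G, a G * F G W τ := by
      rw [sum_comm]
      refine sum_congr rfl fun W _ => ?_
      rw [← mul_sum]
      congr 1
      rw [sum_comm]
      exact sum_congr rfl fun G _ => mul_sum _ _ _
    rw [this]
    exact sum_eq_zero fun τ _ => h τ
  refine hswap (fun G W τ => ∏ p, if (⟨p.1.1, (p.2, (G p.1) p.2)⟩ : GV n) =
    ⟨(τ p).2, (w (τ p).1 (τ p).2, W (τ p).1 (τ p).2)⟩ then 1 else 0)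
    (fun G => ∏ s, ((Equiv.Perm.sign (G s) : ℤ) : Ω)) (fun W => ∏ r, z r (W r)) fun τ => ?_
  by_cases hτ : ∀ p, (τ p).2 = p.1.1
  · -- the matching preserves the slots
    have hbij : ∀ t : Fin m, Function.Bijective
        (fun x : Fin (e t * j) × Fin (n t) => (τ ⟨⟨t, x.1⟩, x.2⟩).1) := by
      intro t
      constructor
      · rintro ⟨k, i⟩ ⟨k', i'⟩ h
        have h1 : τ ⟨⟨t, k⟩, i⟩ = τ ⟨⟨t, k'⟩, i'⟩ :=
          Prod.ext h ((hτ ⟨⟨t, k⟩, i⟩).trans (hτ ⟨⟨t, k'⟩, i'⟩).symm)
        have h2 := τ.injective h1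
        simp only [Sigma.mk.inj_iff, heq_eq_eq] at h2
        obtain ⟨⟨_, rfl⟩, h3⟩ := h2
        rw [h3]
      · intro r
        rcases hp : τ.symm (r, t) with ⟨⟨t', k⟩, i⟩
        have h1 : τ ⟨⟨t', k⟩, i⟩ = (r, t) := by rw [← hp, Equiv.apply_symm_apply]
        have h2 := hτ ⟨⟨t', k⟩, i⟩
        rw [h1] at h2
        change t = t' at h2
        subst h2
        refine ⟨(k, i), ?_⟩
        change (τ ⟨⟨t, k⟩, i⟩).1 = r
        rw [h1]
    let σ : ∀ t, Fin (e t * j) × Fin (n t) ≃ Fin s := fun t => Equiv.ofBijective _ (hbij t)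
    have hσ : ∀ (t : Fin m) (k : Fin (e t * j)) (i : Fin (n t)),
        τ ⟨⟨t, k⟩, i⟩ = (σ t (k, i), t) := fun t k i => Prod.ext rfl (hτ ⟨⟨t, k⟩, i⟩)
    have hs : 0 < s := by
      have h1 := (σ ⟨0, hm⟩ (⟨0, Nat.mul_pos (he _) hj⟩, ⟨0, hn _⟩)).pos
      exact h1
    have h1 : ∀ W : Fin s → Idx n,
        ∑ G : (∀ s : (Σ t : Fin m, Fin (e t * j)), Equiv.Perm (Fin (n s.1))),
          (∏ s, ((Equiv.Perm.sign (G s) : ℤ) : Ω)) *
            ∏ p, (if (⟨p.1.1, (p.2, (G p.1) p.2)⟩ : GV n) =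
              ⟨(τ p).2, (w (τ p).1 (τ p).2, W (τ p).1 (τ p).2)⟩ then (1 : Ω) else 0) =
        (∏ t, ∏ k, ∏ i, (if i = w (σ t (k, i)) t then (1 : Ω) else 0)) *
          ∏ t, ∏ k, eps (fun i => W (σ t (k, i)) t) := by
      intro W
      have h2 : ∀ G : (∀ s : (Σ t : Fin m, Fin (e t * j)), Equiv.Perm (Fin (n s.1))),
          (∏ s, ((Equiv.Perm.sign (G s) : ℤ) : Ω)) *
            ∏ p, (if (⟨p.1.1, (p.2, (G p.1) p.2)⟩ : GV n) =
              ⟨(τ p).2, (w (τ p).1 (τ p).2, W (τ p).1 (τ p).2)⟩ then (1 : Ω) else 0) =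
          ∏ s, (((Equiv.Perm.sign (G s) : ℤ) : Ω) *
            ∏ i, (if i = w (σ s.1 (s.2, i)) s.1 then (1 : Ω) else 0) *
              (if G s i = W (σ s.1 (s.2, i)) s.1 then 1 else 0)) := by
        intro G
        have h4 := Fintype.prod_sigma (fun p : (Σ s : (Σ t : Fin m, Fin (e t * j)), Fin (n s.1)) =>
          (if (⟨p.1.1, (p.2, (G p.1) p.2)⟩ : GV n) =
              ⟨(τ p).2, (w (τ p).1 (τ p).2, W (τ p).1 (τ p).2)⟩ then (1 : Ω) else 0))
        rw [h4, prod_mul_distrib]
        congr 1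
        refine prod_congr rfl fun s _ => prod_congr rfl fun i _ => ?_
        obtain ⟨t, k⟩ := s
        rw [hσ t k i]
        by_cases ha : i = w (σ t (k, i)) t
        · by_cases hb : G ⟨t, k⟩ i = W (σ t (k, i)) t
          · rw [if_pos ha, if_pos hb, if_pos, mul_one]
            dsimp only
            rw [← ha, ← hb]
          · rw [if_pos ha, if_neg hb, if_neg, mul_zero]
            intro h
            simp only [Sigma.mk.inj_iff, heq_eq_eq, Prod.mk.injEq, true_and] at h
            exact hb h.2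
        · rw [if_neg ha, zero_mul, if_neg]
          intro h
          simp only [Sigma.mk.inj_iff, heq_eq_eq, Prod.mk.injEq, true_and] at h
          exact ha h.1
      rw [sum_congr rfl fun G _ => h2 G]
      have h3 := Finset.prod_univ_sum (fun s : (Σ t : Fin m, Fin (e t * j)) =>
        (univ : Finset (Equiv.Perm (Fin (n s.1))))) (fun s π => (((Equiv.Perm.sign π : ℤ) : Ω) *
            ∏ i, (if i = w (σ s.1 (s.2, i)) s.1 then (1 : Ω) else 0) *
              (if π i = W (σ s.1 (s.2, i)) s.1 then 1 else 0)))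
      rw [Fintype.piFinset_univ] at h3
      rw [← h3, Fintype.prod_sigma, ← prod_mul_distrib]
      refine prod_congr rfl fun t _ => ?_
      rw [← prod_mul_distrib]
      refine prod_congr rfl fun k _ => ?_
      rw [eps_eq, mul_sum]
      refine sum_congr rfl fun π _ => ?_
      rw [prod_mul_distrib]
      ring
    simp only [h1]
    have h2 := hM s _ σ hs z hz
    unfold detForm at h2
    calc ∑ W : Fin s → Idx n, (∏ r, z r (W r)) *
          ((∏ t, ∏ k, ∏ i, (if i = w (σ t (k, i)) t then (1 : Ω) else 0)) *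
          ∏ t, ∏ k, eps (fun i => W (σ t (k, i)) t))
        = (∏ t, ∏ k, ∏ i, (if i = w (σ t (k, i)) t then (1 : Ω) else 0)) *
          ∑ W : Fin s → Idx n, (∏ t, ∏ k, eps (fun i => W (σ t (k, i)) t)) *
            ∏ r, z r (W r) := by
          rw [mul_sum]
          exact sum_congr rfl fun W _ => by ring
      _ = 0 := by rw [h2, mul_zero]
  · push Not at hτ
    obtain ⟨p, hp⟩ := hτ
    refine sum_eq_zero fun W _ => ?_
    rw [sum_eq_zero, mul_zero]
    intro G _
    rw [prod_eq_zero (mem_univ p), mul_zero]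
    refine if_neg fun h => hp ?_
    exact (congrArg Sigma.fst h).symm

/-- powers of the generic determinant are orthogonal to the algebra of coordinates -/
lemma fis_genDet_alg [CharZero Ω] {M : Set (Idx n → Ω)} (hM : DetZero M) (hm : 0 < m)
    {e : Fin m → ℕ} (he : ∀ t, 0 < e t) (hn : ∀ t, 0 < n t) {j : ℕ} (hj : 0 < j)
    {a : MvPolynomial (GV n) Ω} (ha : a ∈ coordAlg M) : fis (genDet n Ω e ^ j) a = 0 := by
  have h1 : a ∈ Submodule.span Ω (Submonoid.closure
      {f : MvPolynomial (GV n) Ω | ∃ z ∈ M, ∃ w, f = coord z w} : Set _) := by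
    rw [← Algebra.adjoin_eq_span]
    exact ha
  induction h1 using Submodule.span_induction with
  | mem x hx =>
    obtain ⟨l, hl, rfl⟩ := Submonoid.exists_list_of_mem_closure hx
    have h2 : ∀ i : Fin l.length, ∃ z ∈ M, ∃ w, l.get i = coord z w := fun i =>
      hl _ (List.get_mem l i)
    choose z hz w hw using h2
    have h3 : l.prod = ∏ i : Fin l.length, coord (z i) (w i) := by
      rw [← prod_congr rfl fun i _ => hw i, ← List.prod_ofFn, List.ofFn_get]
    rw [h3]
    exact fis_genDet_coord hM hm he hn hj z hz w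
  | zero => rw [map_zero]
  | add x y hx hy hx' hy' =>
    rw [map_add, hx' (by
      have : x ∈ (coordAlg M).toSubmodule := by
        rw [coordAlg, Algebra.adjoin_eq_span]; exact hx
      exact this), hy' (by
      have : y ∈ (coordAlg M).toSubmodule := by
        rw [coordAlg, Algebra.adjoin_eq_span]; exact hy
      exact this), add_zero]
  | smul c x hx hx' =>
    rw [map_smul, hx' (by
      have : x ∈ (coordAlg M).toSubmodule := by
        rw [coordAlg, Algebra.adjoin_eq_span]; exact hx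
      exact this), smul_zero]

lemma genDet_map {S : Type*} [CommRing S] (e : Fin m → ℕ) :
    MvPolynomial.map (Int.castRingHom S) (genDet n ℤ e) = genDet n S e := by
  unfold genDet
  rw [map_prod]
  refine prod_congr rfl fun t _ => ?_
  rw [map_pow, RingHom.map_det]
  congr 2
  ext1 a b
  rw [RingHom.mapMatrix_apply, Matrix.map_apply]
  change MvPolynomial.map _ (X _) = X _
  rw [MvPolynomial.map_X]

lemma fis_genDet_self [CharZero Ω] (e : Fin m → ℕ) (k : ℕ) :
    fis (genDet n Ω e ^ k) (genDet n Ω e ^ k) ≠ 0 := by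
  have h1 := fis_self_ne_zero (S := Ω) (genDet n ℤ e ^ k) (by
    intro h
    have h2 : eval (pt (1 : Mats n ℤ)) (genDet n ℤ e ^ k) = 0 := by rw [h, map_zero]
    rw [map_pow, eval_genDet] at h2
    simp [cfac] at h2)
  rwa [map_pow, genDet_map] at h1

/-- **Theorem A**: if all products of determinants vanish on `M`, the generic determinant is not
integral over the algebra of coordinates. -/
theorem not_isIntegral [CharZero Ω] {M : Set (Idx n → Ω)} (hM : DetZero M) (hm : 0 < m)
    {e : Fin m → ℕ} (he : ∀ t, 0 < e t) (hn : ∀ t, 0 < n t) :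
    ¬ IsIntegral (coordAlg M) (genDet n Ω e) := by
  rintro ⟨p, hp, hp0⟩
  set D := genDet n Ω e with hD
  rw [Polynomial.eval₂_eq_sum_range, sum_range_succ, hp.coeff_natDegree, map_one, one_mul] at hp0
  set k := p.natDegree with hk
  have h1 := congrArg (fis (D ^ k)) hp0
  rw [map_add, map_zero, map_sum, sum_eq_zero, zero_add] at h1
  · exact fis_genDet_self e k h1
  · intro i hi
    rw [mem_range] at hi
    obtain ⟨β, hβ⟩ := fis_genDet_pow (n := n) (Ω := Ω) e (k - i) i
    rw [Nat.sub_add_cancel hi.le] at hβ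
    rw [hβ]
    have h2 := fis_genDet_alg hM hm he hn (Nat.sub_pos_of_lt hi) (p.coeff i).2
    change β * fis (genDet n Ω e ^ (k - i)) ((p.coeff i : coordAlg M) : MvPolynomial (GV n) Ω) = 0
    rw [h2, mul_zero]

end Pool.Agent.Helper10.GIT
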